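import Mathlib
import Pool.Agent.Results.MP_34aa70_nt.LimitOfZeros

set_option autoImplicit false

/-! The density of the integers which have the same height as one of their neighbours. -/

namespace Pool.Agent.Results.MP_c516eb_nt.PairedDensity

open Filter Topology

/-- The Collatz map. -/
def C (n : ℕ) : ℕ := if n % 2 = 0 then n / 2 else 3 * n + 1

/-- `n` has finite height: some iterate of `n` equals `1`. -/
def Finite (n : ℕ) : Prop := ∃ k, C^[k] n = 1

/-- The height `h(n)`, the least `k ≥ 0` with `C^k(n) = 1` (meaningful only if `Finite n`). -/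
noncomputable def h (n : ℕ) : ℕ := sInf {k | C^[k] n = 1}

/-- `n` is paired: `h(n) < ∞` and `n ≥ 2`, `h(n) = h(n-1)`, or `h(n) = h(n+1)`. -/
def Paired (n : ℕ) : Prop :=
  Finite n ∧ ((2 ≤ n ∧ Finite (n - 1) ∧ h n = h (n - 1)) ∨ (Finite (n + 1) ∧ h n = h (n + 1)))

/-- The number of the `1 ≤ n ≤ N` with the property `P`. -/
noncomputable def count (P : ℕ → Prop) (N : ℕ) : ℕ := {n : ℕ | 1 ≤ n ∧ n ≤ N ∧ P n}.ncard

theorem count_mono {P Q : ℕ → Prop} (h : ∀ n, P n → Q n) (N : ℕ) : count P N ≤ count Q N :=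
  Set.ncard_le_ncard (fun _ hn => ⟨hn.1, hn.2.1, h _ hn.2.2⟩)
    ((Set.finite_Icc 1 N).subset fun _ hn => ⟨hn.1, hn.2.1⟩)

/-- **Main theorem.**  The set `E` of the paired integers has a natural density `δ`, which is
positive. It is also the natural density of the set of all the integers of finite height, and of the
set of the `n` with `h(n) = h(n+1) < ∞`; it is `1` if and only if all the heights are finite. In
particular almost all integers of finite height are paired. -/
theorem result : (∃ δ : ℝ, 0 < δ ∧ δ ≤ 1 ∧ (δ = 1 ↔ ∀ n, 1 ≤ n → Finite n) ∧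
      Tendsto (fun N : ℕ => (count Paired N : ℝ) / N) atTop (𝓝 δ) ∧
      Tendsto (fun N : ℕ => (count Finite N : ℝ) / N) atTop (𝓝 δ) ∧
      Tendsto (fun N : ℕ => (count (fun n => (Finite n ∧ Finite (n + 1)) ∧ h n = h (n + 1)) N : ℝ) / N)
        atTop (𝓝 δ)) ∧
    Tendsto (fun N : ℕ => (count Paired N : ℝ) / count Finite N) atTop (𝓝 1) := by
  obtain ⟨⟨δ, h0, h1, h2, hZ, hD⟩, _⟩ := Pool.Agent.Results.MP_34aa70_nt.LimitOfZeros.result
  have hD' : Tendsto (fun N : ℕ => (count Finite N : ℝ) / N) atTop (𝓝 δ) := hD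
  have hZ' : Tendsto (fun N : ℕ =>
      (count (fun n => (Finite n ∧ Finite (n + 1)) ∧ h n = h (n + 1)) N : ℝ) / N) atTop (𝓝 δ) := by
    refine hZ.congr fun N => ?_
    unfold count Pool.Agent.Results.MP_34aa70_nt.LimitOfZeros.Z
    congr 3
    ext n
    simp only [Set.mem_ofPred_eq]
    refine and_congr_right fun _ => and_congr_right fun _ => and_congr_right fun _ => ?_
    have e : Pool.Agent.Results.MP_34aa70_nt.LimitOfZeros.a n = (h (n + 1) : ℤ) - h n := rfl
    rw [e]
    omega
  have hP : Tendsto (fun N : ℕ => (count Paired N : ℝ) / N) atTop (𝓝 δ) := by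
    refine tendsto_of_tendsto_of_tendsto_of_le_of_le hZ' hD' (fun N => ?_) (fun N => ?_)
    · apply div_le_div_of_nonneg_right _ (Nat.cast_nonneg N)
      exact Nat.cast_le.2 (count_mono (fun n hn => ⟨hn.1.1, Or.inr ⟨hn.1.2, hn.2⟩⟩) N)
    · apply div_le_div_of_nonneg_right _ (Nat.cast_nonneg N)
      exact Nat.cast_le.2 (count_mono (fun n hn => hn.1) N)
  refine ⟨⟨δ, h0, h1, h2, hP, hD', hZ'⟩, ?_⟩
  have h4 := hP.div hD' h0.ne'
  rw [div_self h0.ne'] at h4
  refine h4.congr' ?_
  filter_upwards [eventually_gt_atTop 0] with N hN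
  have hNr : (N : ℝ) ≠ 0 := by exact_mod_cast hN.ne'
  simp only [Pi.div_apply]
  field_simp

end Pool.Agent.Results.MP_c516eb_nt.PairedDensity
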